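import Mathlib
import Pool.Agent.NPC.Defs
import Pool.Agent.MP_868529_lc.Statement
import Pool.Agent.MP_868529_lc.Main

set_option autoImplicit false

/-!
# Recognising induced subgraphs of binary De Bruijn graphs is NP-hard

Proof: Cook-Levin, 3-SAT to 4-colourability, and a reduction from 4-colourability in which the
vertices of the digraph are the arcs of a subgraph of a butterfly network.
-/

open Pool.NPC Pool.Agent.MP_868529_lc

/-- The membership problem for the class of digraphs having a `(2,k)`-labeling for some `k ≥ 1`
(the digraph is the input, given by its adjacency matrix) is NP-hard under polynomial-time
many-one reductions. -/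
theorem Pool.Agent.Results.MP_868529_lc.NPHardness.result : NPHard (membershipProblem 2) :=
  npHard_membershipProblem
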